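import Mathlib

/-!
# A level-transitive automaton semigroup whose dual semigroup is not free

`Mealy Q A` is a Mealy automaton with the set of states `Q` and the alphabet `A`; `M.act q` is the action
of the state `q` on the finite words over `A`, `M.semigroup` is the automaton semigroup (the semigroup of
maps generated by the `M.act q` under composition), `M.dual` is the dual automaton.

We exhibit a finite *invertible* automaton with 5 states over an alphabet with 4 letters, in which different
states act differently and different letters act differently in the dual, such that the automaton semigroup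
is transitive on all levels `A^n`, while the semigroup of the dual is not freely generated by the letters.
In fact it contains elements `x ≠ y`, `z` with `x z = y z`, hence it is not isomorphic to any free semigroup.

The automaton: the letters are pairs `(b, c)` of bits. The states `e`, `p`, `m` are the identity, the binary
odometer on the `b`-coordinates and its inverse, `t` changes the `c`-coordinates up to the first letter with
`b = 1`; the transitions from these four states do not depend on `c`. The state `r` fixes the first letter
and continues with the state `e` or `p` according to the value of `c`.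
-/

set_option autoImplicit false

namespace Pool.Agent.Results.MP_407f73_al.TransitiveNotFree

/-- A Mealy automaton with states `Q` over the alphabet `A`: transition and output functions. -/
structure Mealy (Q A : Type) where
  /-- transition function -/
  δ : Q → A → Q
  /-- output function -/
  lam : Q → A → A

namespace Mealy

variable {Q A : Type}

/-- The action of a state on the finite words,
`q ∘ (a₁ a₂ ⋯ aₙ) = λ(q, a₁) (δ(q, a₁) ∘ (a₂ ⋯ aₙ))`. -/
def act (M : Mealy Q A) : Q → List A → List A
  | _, [] => []
  | q, a :: w => M.lam q a :: M.act (M.δ q a) w

/-- The action of a state as an element of the monoid `Function.End (List A)` of all maps `A* → A*` (its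
multiplication is the composition of maps). -/
def actEnd (M : Mealy Q A) (q : Q) : Function.End (List A) := M.act q

/-- The automaton semigroup: the semigroup of maps `A* → A*` generated under composition by the actions of
the states. -/
def semigroup (M : Mealy Q A) : Subsemigroup (Function.End (List A)) :=
  Subsemigroup.closure (Set.range M.actEnd)

/-- The dual automaton: states and letters are exchanged. -/
def dual (M : Mealy Q A) : Mealy A Q where
  δ a q := M.lam q a
  lam a q := M.δ q a

/-- The semigroup is transitive on the tree: for all `n ≥ 1` and all words `u`, `v` of length `n` some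
element of the semigroup maps `u` to `v`. -/
def Transitive (M : Mealy Q A) : Prop :=
  ∀ n : ℕ, 1 ≤ n → ∀ u v : List A, u.length = n → v.length = n → ∃ s ∈ M.semigroup, s u = v

/-- The automaton semigroup is freely generated by the actions of the states: different nonempty words over
the set of states (elements of the free semigroup) induce different maps. -/
def Free (M : Mealy Q A) : Prop :=
  Function.Injective (FreeSemigroup.lift M.actEnd)

end Mealy

/-- The five states. -/
inductive St
  | e | p | m | t | r
  deriving DecidableEq

open St

instance : Fintype St := ⟨{e, p, m, t, r}, by intro x; cases x <;> decide⟩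

/-- The alphabet: pairs of bits. -/
abbrev Al := Bool × Bool

/-- The output function. -/
def out : St → Al → Al
  | e, (b, c) => (b, c)
  | p, (b, c) => (!b, c)
  | m, (b, c) => (!b, c)
  | t, (b, c) => (b, !c)
  | r, (b, c) => (b, c)

/-- The transition function. -/
def next : St → Al → St
  | e, _ => e
  | p, (false, _) => e
  | p, (true, _) => p
  | m, (false, _) => m
  | m, (true, _) => e
  | t, (false, _) => t
  | t, (true, _) => e
  | r, (_, false) => e
  | r, (_, true) => p

/-- The automaton. -/
def M : Mealy St Al where
  δ := next
  lam := out

theorem act_nil (q : St) : M.act q [] = [] := rfl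

theorem act_cons (q : St) (a : Al) (w : List Al) :
    M.act q (a :: w) = out q a :: M.act (next q a) w := rfl

theorem act_e (w : List Al) : M.act e w = w := by
  induction w with
  | nil => rfl
  | cons a w ih =>
    rw [act_cons]
    show (out e a) :: M.act e w = a :: w
    rw [ih]
    rfl

/-- One step with a state different from `r`. -/
def Step (u v : List Al) : Prop := ∃ q : St, q ≠ r ∧ v = M.act q u

abbrev Reach : List Al → List Al → Prop := Relation.ReflTransGen Step

theorem step_of (q : St) (hq : q ≠ r) (u : List Al) : Reach u (M.act q u) :=
  Relation.ReflTransGen.single ⟨q, hq, rfl⟩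

theorem flip_up (c : Bool) (w : List Al) : Reach ((false, c) :: w) ((true, c) :: w) := by
  have h := step_of p (by decide) ((false, c) :: w)
  rw [act_cons] at h
  simpa [out, next, act_e] using h

theorem flip_down (c : Bool) (w : List Al) : Reach ((true, c) :: w) ((false, c) :: w) := by
  have h := step_of m (by decide) ((true, c) :: w)
  rw [act_cons] at h
  simpa [out, next, act_e] using h

theorem flip_c (c : Bool) (w : List Al) : Reach ((true, c) :: w) ((true, !c) :: w) := by
  have h := step_of t (by decide) ((true, c) :: w)
  rw [act_cons] at h
  simpa [out, next, act_e] using h

theorem change_head (x y : Al) (w : List Al) : Reach (x :: w) (y :: w) := by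
  have h1 : ∀ (x : Al), Reach (x :: w) ((true, x.2) :: w) := by
    rintro ⟨b, c⟩
    cases b
    · exact flip_up c w
    · exact Relation.ReflTransGen.refl
  have h2 : ∀ (y : Al), Reach ((true, y.2) :: w) (y :: w) := by
    rintro ⟨b, c⟩
    cases b
    · exact flip_down c w
    · exact Relation.ReflTransGen.refl
  have h3 : ∀ c d : Bool, Reach ((true, c) :: w) ((true, d) :: w) := by
    intro c d
    by_cases h : c = d
    · rw [h]
    · have : d = !c := by
        cases c <;> cases d <;> simp_all
      rw [this]
      exact flip_c c w
  exact ((h1 x).trans (h3 _ _)).trans (h2 y)

/-- A step on `w` can be lifted to `(0,0) w`. -/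
theorem lift_step (u v : List Al) (h : Step u v) :
    Reach ((false, false) :: u) ((false, false) :: v) := by
  obtain ⟨q, hq, rfl⟩ := h
  cases q with
  | e =>
    rw [act_e]
  | p =>
    have h1 := flip_up false u
    have h2 := step_of p (by decide) ((true, false) :: u)
    rw [act_cons] at h2
    exact h1.trans (by simpa [out, next] using h2)
  | m =>
    have h1 := step_of m (by decide) ((false, false) :: u)
    rw [act_cons] at h1
    have h2 := flip_down false (M.act m u)
    exact Relation.ReflTransGen.trans (by simpa [out, next] using h1) h2
  | t =>
    have h1 := step_of t (by decide) ((false, false) :: u)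
    rw [act_cons] at h1
    have h2 := change_head (false, true) (false, false) (M.act t u)
    exact Relation.ReflTransGen.trans (by simpa [out, next] using h1) h2
  | r => exact absurd rfl hq

theorem lift_reach (u v : List Al) (h : Reach u v) :
    Reach ((false, false) :: u) ((false, false) :: v) := by
  induction h with
  | refl => exact Relation.ReflTransGen.refl
  | tail _ h2 ih => exact ih.trans (lift_step _ _ h2)

theorem reach_all : ∀ u v : List Al, u.length = v.length → Reach u v
  | [], [], _ => Relation.ReflTransGen.refl
  | [], _ :: _, h => by simp at h
  | _ :: _, [], h => by simp at h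
  | x :: u, y :: v, h => by
    have h1 := change_head x (false, false) u
    have h2 := lift_reach u v (reach_all u v (by simpa using h))
    have h3 := change_head (false, false) y v
    exact (h1.trans h2).trans h3

theorem act_mem (q : St) : M.actEnd q ∈ M.semigroup :=
  Subsemigroup.subset_closure ⟨q, rfl⟩

theorem exists_of_reach (u v : List Al) (h : Reach u v) : ∃ s ∈ M.semigroup, s u = v := by
  induction h with
  | refl => exact ⟨_, act_mem e, act_e u⟩
  | tail _ h2 ih =>
    obtain ⟨s, hs, hu⟩ := ih
    obtain ⟨q, _, rfl⟩ := h2
    refine ⟨M.actEnd q * s, M.semigroup.mul_mem (act_mem q) hs, ?_⟩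
    show M.act q (s u) = _
    rw [hu]

theorem transitive : M.Transitive := fun _ _ u v hu hv =>
  exists_of_reach u v (reach_all u v (hu.trans hv.symm))

/-! ### The dual -/

theorem dual_act_nil (a : Al) : M.dual.act a [] = [] := rfl

theorem dual_act_cons (a : Al) (q : St) (w : List St) :
    M.dual.act a (q :: w) = next q a :: M.dual.act (out q a) w := rfl

/-- On the words without the letter `r` the letters `(b, c)` and `(b, c')` act identically. -/
theorem dual_act_eq : ∀ (w : List St), r ∉ w → ∀ b c c' : Bool,
    M.dual.act (b, c) w = M.dual.act (b, c') w
  | [], _, _, _, _ => rfl
  | q :: w, hw, b, c, c' => by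
    have hq : q ≠ r := fun h => hw (by simp [h])
    have hw' : r ∉ w := fun h => hw (by simp [h])
    rw [dual_act_cons, dual_act_cons]
    have h1 : next q (b, c) = next q (b, c') := by
      cases q <;> cases b <;> simp_all [next]
    have h2 : ∃ b1 c1 c2, out q (b, c) = (b1, c1) ∧ out q (b, c') = (b1, c2) := by
      cases q <;> simp [out]
    obtain ⟨b1, c1, c2, h3, h4⟩ := h2
    rw [h1, h3, h4, dual_act_eq w hw' b1 c1 c2]

/-- The letter `r` never occurs in the image of the action of a letter. -/
theorem r_not_mem : ∀ (w : List St) (a : Al), r ∉ M.dual.act a w
  | [], _ => by simp [dual_act_nil]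
  | q :: w, a => by
    rw [dual_act_cons, List.mem_cons, not_or]
    refine ⟨?_, r_not_mem w _⟩
    revert a
    revert q
    decide

/-- The maps of the letters of the dual. -/
abbrev D : Al → Function.End (List St) := M.dual.actEnd

theorem D_mul (a : Al) (b : Bool) : D (b, false) * D a = D (b, true) * D a := by
  funext w
  exact dual_act_eq _ (r_not_mem w a) b false true

theorem D_injective : Function.Injective D := by
  intro a b h
  have h1 : M.dual.act a [r] = M.dual.act b [r] := congrFun h [r]
  have h2 : M.dual.act a [p] = M.dual.act b [p] := congrFun h [p]
  simp only [dual_act_cons, dual_act_nil, List.cons.injEq, and_true] at h1 h2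
  clear h
  revert a b
  decide

theorem act_injective : Function.Injective M.act := by
  intro q q' h
  have h1 : ∀ a b : Al, M.act q [a, b] = M.act q' [a, b] := fun a b => congrFun h [a, b]
  simp only [act_cons, act_nil, List.cons.injEq, and_true] at h1
  clear h
  revert q q'
  decide

theorem not_free : ¬ M.dual.Free := by
  intro h
  have h1 := @h (FreeSemigroup.of (false, false) * FreeSemigroup.of (false, false))
    (FreeSemigroup.of (false, true) * FreeSemigroup.of (false, false)) (by
      rw [map_mul, map_mul]
      exact D_mul (false, false) false)
  have h2 := congrArg FreeSemigroup.head h1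
  simp at h2

theorem free_right_cancel {X : Type*} (x y z : FreeSemigroup X) (h : x * z = y * z) : x = y := by
  have h1 := congrArg FreeSemigroup.head h
  have h2 := congrArg FreeSemigroup.tail h
  obtain ⟨x1, x2⟩ := x
  obtain ⟨y1, y2⟩ := y
  obtain ⟨z1, z2⟩ := z
  simp only [FreeSemigroup.head_mul, FreeSemigroup.tail_mul] at h1 h2
  rw [h1, List.append_cancel_right h2]

theorem not_iso (X : Type*) : IsEmpty (M.dual.semigroup ≃* FreeSemigroup X) := by
  refine ⟨fun f => ?_⟩
  have hm : ∀ a : Al, D a ∈ M.dual.semigroup := fun a => Subsemigroup.subset_closure ⟨a, rfl⟩
  let d : Al → M.dual.semigroup := fun a => ⟨D a, hm a⟩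
  have h1 : d (false, false) * d (false, false) = d (false, true) * d (false, false) :=
    Subtype.ext (D_mul (false, false) false)
  have h2 : f (d (false, false)) * f (d (false, false)) =
      f (d (false, true)) * f (d (false, false)) := by
    rw [← map_mul, ← map_mul, h1]
  have h3 := f.injective (free_right_cancel _ _ _ h2)
  have h4 := D_injective (Subtype.ext_iff.1 h3)
  simp at h4

/-- **Disproof of Q1.** There is a finite Mealy automaton over an alphabet with at least two letters (with 5
states and 4 letters), invertible, with different states acting differently and different letters acting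
differently in the dual, whose semigroup is transitive on the tree, although the semigroup of the dual
automaton is not freely generated by the maps of the letters; it is not even isomorphic to a free
semigroup. -/
theorem result : ∃ (Q A : Type) (_ : Fintype Q) (_ : Fintype A) (M : Mealy Q A),
    Fintype.card Q = 5 ∧ Fintype.card A = 4 ∧
    (∀ q, Function.Bijective (M.lam q)) ∧ Function.Injective M.act ∧ Function.Injective M.dual.act ∧
    M.Transitive ∧ ¬ M.dual.Free ∧
    ∀ X : Type, IsEmpty (M.dual.semigroup ≃* FreeSemigroup X) := by
  refine ⟨St, Al, inferInstance, inferInstance, M, rfl, rfl, ?_, act_injective, D_injective,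
    transitive, not_free, fun X => not_iso X⟩
  intro q
  show Function.Bijective (out q)
  rw [← Finite.injective_iff_bijective]
  intro a b
  revert a b
  revert q
  decide

end Pool.Agent.Results.MP_407f73_al.TransitiveNotFree
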